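import Mathlib

set_option autoImplicit false

namespace Pool.Agent.Results.MP_781439_al.NoAct

/-- The right-angled Artin group of a simplicial graph: generators the vertices, relations
`u v u⁻¹ v⁻¹ = 1` for adjacent vertices `u, v`. -/
abbrev RAAG {V : Type} (Γ : SimpleGraph V) : Type :=
  PresentedGroup {r : FreeGroup V | ∃ u v, Γ.Adj u v ∧
    r = FreeGroup.of u * FreeGroup.of v * (FreeGroup.of u)⁻¹ * (FreeGroup.of v)⁻¹}

/-- The graph on `ℕ` in which two distinct vertices are adjacent iff the larger one is even. -/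
def Gam : SimpleGraph ℕ where
  Adj i j := i ≠ j ∧ Even (max i j)
  symm := ⟨fun _ _ h => ⟨h.1.symm, by rw [max_comm]; exact h.2⟩⟩
  loopless := ⟨fun _ h => h.1 rfl⟩

/-- the generators -/
abbrev gen (i : ℕ) : RAAG Gam := PresentedGroup.of i

lemma comm_gen {i j : ℕ} (h : Gam.Adj i j) : Commute (gen i) (gen j) := by
  have : (PresentedGroup.mk _ (FreeGroup.of i * FreeGroup.of j * (FreeGroup.of i)⁻¹
      * (FreeGroup.of j)⁻¹) : RAAG Gam) = 1 := PresentedGroup.one_of_mem ⟨i, j, h, rfl⟩
  simp only [map_mul, map_inv] at this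
  exact commutatorElement_eq_one_iff_commute.mp this

lemma exists_hom {H : Type} [Group H] (f : ℕ → H) (hf : ∀ i j, Gam.Adj i j → Commute (f i) (f j)) :
    ∃ π : RAAG Gam →* H, ∀ i, π (gen i) = f i := by
  refine ⟨PresentedGroup.toGroup (f := f) ?_, fun i => PresentedGroup.toGroup.of _⟩
  rintro _ ⟨u, v, h, rfl⟩
  simp only [map_mul, map_inv, FreeGroup.lift_apply_of]
  exact commutatorElement_eq_one_iff_commute.mpr (hf u v h)

lemma gen_ne (i : ℕ) : gen i ≠ 1 := by
  obtain ⟨π, hπ⟩ := exists_hom (fun _ => Multiplicative.ofAdd (1 : ℤ)) fun _ _ _ => Commute.refl _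
  intro h
  have := hπ i
  rw [h, map_one] at this
  exact absurd (congrArg Multiplicative.toAdd this) (by simp)

lemma supp (a : RAAG Gam) : ∃ n, ∀ m, n ≤ m → a ∈ Subgroup.closure (gen '' Set.Iio m) := by
  have : a ∈ Subgroup.closure (Set.range gen) := by
    rw [PresentedGroup.closure_range_of]; trivial
  induction this using Subgroup.closure_induction with
  | mem x hx =>
    obtain ⟨i, rfl⟩ := hx
    exact ⟨i + 1, fun m hm => Subgroup.subset_closure ⟨i, hm, rfl⟩⟩
  | one => exact ⟨0, fun m _ => one_mem _⟩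
  | mul x y _ _ hx hy =>
    obtain ⟨n, hn⟩ := hx
    obtain ⟨n', hn'⟩ := hy
    exact ⟨max n n', fun m hm =>
      mul_mem (hn m (le_of_max_le_left hm)) (hn' m (le_of_max_le_right hm))⟩
  | inv x _ hx =>
    obtain ⟨n, hn⟩ := hx
    exact ⟨n, fun m hm => inv_mem (hn m hm)⟩

lemma common (a b : RAAG Gam) : ∃ v, Commute a (gen v) ∧ Commute b (gen v) := by
  obtain ⟨n, hn⟩ := supp a
  obtain ⟨n', hn'⟩ := supp b
  have key : ∀ x ∈ Subgroup.closure (gen '' Set.Iio (2 * (n + n'))), Commute x (gen (2 * (n + n'))) := by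
    intro x hx
    induction hx using Subgroup.closure_induction with
    | mem x hx =>
      obtain ⟨i, hi, rfl⟩ := hx
      have hi' : i < 2 * (n + n') := hi
      exact comm_gen ⟨hi'.ne, by rw [max_eq_right hi'.le]; exact even_two_mul _⟩
    | one => exact Commute.one_left _
    | mul x y _ _ hx hy => exact hx.mul_left hy
    | inv x _ hx => exact hx.inv_left
  exact ⟨_, key a (hn _ (by omega)), key b (hn' _ (by omega))⟩

lemma noncomm (a b : RAAG Gam) (ha : a ≠ 1) (hb : b ≠ 1) : ∃ g, ¬ Commute a (g * b * g⁻¹) := by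
  classical
  obtain ⟨n, hn⟩ := supp a
  obtain ⟨n', hn'⟩ := supp b
  let u := 2 * (n + n') + 1
  let L : RAAG Gam →* Equiv.Perm (Option (RAAG Gam)) :=
    { toFun := fun x => Equiv.optionCongr (MulAction.toPerm x)
      map_one' := by ext1 y; cases y <;> simp
      map_mul' := fun x y => by ext1 z; cases z <;> simp [mul_assoc] }
  have hL0 : ∀ x, L x none = none := fun _ => rfl
  have hL1 : ∀ x y, L x (some y) = some (x * y) := fun _ _ => rfl
  let t : Equiv.Perm (Option (RAAG Gam)) := Equiv.swap none (some 1)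
  obtain ⟨π, hπ⟩ := exists_hom (fun i => if i < u then L (gen i) else if i = u then t else 1) (by
    intro i j hij
    by_cases hi : i < u <;> by_cases hj : j < u
    · simp only [hi, hj, if_true]; exact (comm_gen hij).map L
    · have : j ≠ u := by
        rintro rfl
        have := hij.2
        rw [max_eq_right hi.le] at this
        exact (Nat.not_even_iff_odd.mpr (odd_two_mul_add_one _)) this
      simp only [hi, hj, this, if_true, if_false]; exact Commute.one_right _
    · have : i ≠ u := by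
        rintro rfl
        have := hij.2
        rw [max_eq_left hj.le] at this
        exact (Nat.not_even_iff_odd.mpr (odd_two_mul_add_one _)) this
      simp only [hi, hj, this, if_true, if_false]; exact Commute.one_left _
    · by_cases hiu : i = u
      · have : j ≠ u := fun h => hij.1 (hiu.trans h.symm)
        simp only [hj, this, if_false]; exact Commute.one_right _
      · simp only [hi, hiu, if_false]; exact Commute.one_left _)
  have key : ∀ x ∈ Subgroup.closure (gen '' Set.Iio u), π x = L x := by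
    intro x hx
    induction hx using Subgroup.closure_induction with
    | mem x hx =>
      obtain ⟨i, hi, rfl⟩ := hx
      have hi' : i < u := hi
      rw [hπ]; simp only [hi', if_true]
    | one => rw [map_one, map_one]
    | mul x y _ _ hx hy => rw [map_mul, map_mul, hx, hy]
    | inv x _ hx => rw [map_inv, map_inv, hx]
  have hu : π (gen u) = t := by rw [hπ]; simp
  refine ⟨gen u, fun h => ?_⟩
  have h1 := (h.map π).eq
  rw [map_mul, map_mul, map_inv, hu, key a (hn _ (by omega)), key b (hn' _ (by omega))] at h1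
  have h2 := congrArg (fun p : Equiv.Perm (Option (RAAG Gam)) => t (p (some 1))) h1
  have e1 : t (some 1) = none := Equiv.swap_apply_right _ _
  have e2 : t none = some 1 := Equiv.swap_apply_left _ _
  have e3 : t (some a) = some a := Equiv.swap_apply_of_ne_of_ne (by simp) (by simpa using ha)
  have e4 : ∀ y, t (t y) = y := Equiv.swap_apply_self _ _
  have e5 : t⁻¹ = t := Equiv.swap_inv _ _
  simp only [e5, Equiv.Perm.mul_apply, e1, e2, hL0, hL1, mul_one, e3, e4] at h2
  exact hb (by simpa using h2)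

lemma fix_of_comm (p q : ℚ ≃o ℚ) (h : Commute p q) (hq : {x | q x = x}.Finite) (x : ℚ)
    (hx : q x = x) : p x = x := by
  have := hq.to_subtype
  let f : {x | q x = x} → {x | q x = x} := fun y => ⟨p y, by
    have h1 : (q * p) y = (p * q) y := by rw [h.eq]
    have h2 : q y = y := y.2
    show q (p y) = p y
    exact h1.trans (congrArg p h2)⟩
  have hf : StrictMono f := fun y z hyz => p.strictMono hyz
  exact le_antisymm (hf.apply_le (x := ⟨x, hx⟩)) (hf.le_apply (x := ⟨x, hx⟩))

lemma min_map (p : ℚ ≃o ℚ) (A B : Finset ℚ) (h : A.image p = B) (a b : ℚ) (ha : a ∈ A) (hb : b ∈ B)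
    (ha' : ∀ x ∈ A, a ≤ x) (hb' : ∀ x ∈ B, b ≤ x) : p a = b := by
  refine le_antisymm ?_ (hb' _ (h ▸ Finset.mem_image_of_mem _ ha))
  obtain ⟨x, hx, rfl⟩ := Finset.mem_image.mp (h ▸ hb)
  exact p.monotone (ha' x hx)

/-- A non-cyclic right-angled Artin group (of a countably infinite graph), not a direct product of
two nontrivial groups, with no sharply `k`-transitive order-preserving action on `ℚ`, `k ≥ 2`. -/
theorem result : ∃ Γ : SimpleGraph ℕ, ¬ IsCyclic (RAAG Γ) ∧
    (¬ ∃ (H₁ H₂ : Type) (_ : Group H₁) (_ : Group H₂), Nontrivial H₁ ∧ Nontrivial H₂ ∧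
      Nonempty (RAAG Γ ≃* H₁ × H₂)) ∧
    ∀ k : ℕ, 2 ≤ k → ∀ ρ : RAAG Γ →* (ℚ ≃o ℚ),
      ¬ ∀ A B : Finset ℚ, A.card = k → B.card = k → ∃! g : RAAG Γ, A.image (ρ g) = B := by
  refine ⟨Gam, fun h => ?_, ?_, fun k hk ρ H => ?_⟩
  · obtain ⟨g, hg⟩ := noncomm (gen 0) (gen 0) (gen_ne 0) (gen_ne 0)
    exact hg (h.commGroup.mul_comm _ _)
  · rintro ⟨H₁, H₂, _, _, h1, h2, ⟨e⟩⟩
    obtain ⟨x, hx⟩ := exists_ne (1 : H₁)
    obtain ⟨y, hy⟩ := exists_ne (1 : H₂)
    obtain ⟨g, hg⟩ := noncomm (e.symm (x, 1)) (e.symm (1, y)) (by simpa using hx) (by simpa using hy)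
    apply hg
    apply e.injective
    ext <;> simp
  · have fin : ∀ g : RAAG Gam, g ≠ 1 → {x | ρ g x = x}.Finite := by
      intro g hg
      by_contra hinf
      obtain ⟨A, hA, hc⟩ := Set.Infinite.exists_subset_card_eq hinf k
      refine hg ((H A A hc hc).unique ?_ (by simp))
      exact (Finset.image_congr (g := id) fun x hx => hA hx).trans Finset.image_id
    let S : ℚ → ℚ → Finset ℚ := fun c d => (Finset.range k).image fun i : ℕ => c * i + d
    have hS : ∀ c d, 0 < c → (S c d).card = k := by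
      intro c d hc
      rw [Finset.card_image_of_injective, Finset.card_range]
      intro i j hij
      have : (i : ℚ) = j := mul_left_cancel₀ hc.ne' (add_right_cancel hij)
      exact_mod_cast this
    have hm : ∀ c d, d ∈ S c d := fun c d =>
      Finset.mem_image.mpr ⟨0, Finset.mem_range.mpr (by omega), by simp⟩
    have hl : ∀ c d, 0 < c → ∀ x ∈ S c d, d ≤ x := by
      intro c d hc x hx
      obtain ⟨i, -, rfl⟩ := Finset.mem_image.mp hx
      have : 0 ≤ c * i := by positivity
      linarith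
    obtain ⟨g, hg, -⟩ := H (S 1 0) (S 2 0) (hS _ _ one_pos) (hS _ _ two_pos)
    obtain ⟨h, hh, -⟩ := H (S 1 0) (S 1 1) (hS _ _ one_pos) (hS _ _ one_pos)
    have g0 := min_map _ _ _ hg 0 0 (hm _ _) (hm _ _) (hl _ _ one_pos) (hl _ _ two_pos)
    have h0 := min_map _ _ _ hh 0 1 (hm _ _) (hm _ _) (hl _ _ one_pos) (hl _ _ one_pos)
    have g1 : g ≠ 1 := by
      rintro rfl
      have h1 : (1 : ℚ) ∈ S 1 0 := Finset.mem_image.mpr ⟨1, Finset.mem_range.mpr (by omega), by simp⟩
      have h2 : (1 : ℚ) ∈ S 2 0 := by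
        rw [← hg]; exact Finset.mem_image.mpr ⟨1, h1, by simp⟩
      obtain ⟨i, -, hi⟩ := Finset.mem_image.mp h2
      have h3 : 2 * i = 1 := by
        rw [add_zero] at hi
        exact_mod_cast hi
      omega
    obtain ⟨v, v1, v2⟩ := common g h
    have a1 := fix_of_comm _ _ (v1.symm.map ρ) (fin g g1) 0 g0
    have a2 := fix_of_comm _ _ (v2.map ρ) (fin _ (gen_ne v)) 0 a1
    rw [h0] at a2
    exact one_ne_zero a2

end Pool.Agent.Results.MP_781439_al.NoAct
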